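import Pool.Agent.H317.GH.Stm

set_option autoImplicit false

namespace Pool.Agent.H399.GH

open Matrix Module Pool.Agent.H317.GR Pool.Agent.H317.GH

/-- conjugation with `T` on `SL_n(ℤ)` -/
def cj {n : ℕ} (T : GL (Fin n) ℤ) : SZ n →* SZ n where
  toFun A := ⟨T.val * A.val * (T⁻¹ : GL (Fin n) ℤ).val, by
    rw [Matrix.det_mul, Matrix.det_mul, A.det_coe, mul_one, ← Matrix.det_mul, ← Units.val_mul,
      mul_inv_cancel, Units.val_one, Matrix.det_one]⟩
  map_one' := by
    apply Subtype.ext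
    change T.val * 1 * (T⁻¹ : GL (Fin n) ℤ).val = 1
    rw [mul_one, ← Units.val_mul, mul_inv_cancel, Units.val_one]
  map_mul' A B := by
    apply Subtype.ext
    change T.val * (A.val * B.val) * (T⁻¹ : GL (Fin n) ℤ).val =
      (T.val * A.val * (T⁻¹ : GL (Fin n) ℤ).val) * (T.val * B.val * (T⁻¹ : GL (Fin n) ℤ).val)
    have h : (T⁻¹ : GL (Fin n) ℤ).val * T.val = 1 := by
      rw [← Units.val_mul, inv_mul_cancel, Units.val_one]
    calc T.val * (A.val * B.val) * (T⁻¹ : GL (Fin n) ℤ).val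
        = T.val * A.val * 1 * (B.val * (T⁻¹ : GL (Fin n) ℤ).val) := by
          rw [mul_one]; simp only [mul_assoc]
      _ = _ := by rw [← h]; simp only [mul_assoc]

theorem cj_val {n : ℕ} (T : GL (Fin n) ℤ) (A : SZ n) :
    (cj T A).val = T.val * A.val * (T⁻¹ : GL (Fin n) ℤ).val := rfl

theorem cj_inv {n : ℕ} (T : GL (Fin n) ℤ) (A : SZ n) : cj T⁻¹ (cj T A) = A := by
  apply Subtype.ext
  rw [cj_val, cj_val, inv_inv]
  have h : (T⁻¹ : GL (Fin n) ℤ).val * T.val = 1 := by
    rw [← Units.val_mul, inv_mul_cancel, Units.val_one]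
  calc (T⁻¹ : GL (Fin n) ℤ).val * (T.val * A.val * (T⁻¹ : GL (Fin n) ℤ).val) * T.val
      = ((T⁻¹ : GL (Fin n) ℤ).val * T.val) * A.val * ((T⁻¹ : GL (Fin n) ℤ).val * T.val) := by
        simp only [mul_assoc]
    _ = A.val := by rw [h, one_mul, mul_one]

/-- the automorphism -/
def cje {n : ℕ} (T : GL (Fin n) ℤ) : SZ n ≃* SZ n :=
  { cj T with
    invFun := cj T⁻¹
    left_inv := cj_inv T
    right_inv := fun A => by
      have h := cj_inv T⁻¹ A
      rwa [inv_inv] at h }

theorem dl_dl (n : ℕ) (A : SZ n) : dl n ℤ (dl n ℤ A) = A := by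
  have h1 : dl n ℤ A * A.transpose = 1 := by
    apply Subtype.ext
    change (A⁻¹).valᵀ * A.valᵀ = 1
    rw [← Matrix.transpose_mul]
    have h2 : (A * A⁻¹ : SZ n).val = 1 := by
      rw [mul_inv_cancel]
      rfl
    change (A.val * (A⁻¹).val) = 1 at h2
    rw [h2, Matrix.transpose_one]
  have h3 : (dl n ℤ A)⁻¹ = A.transpose := inv_eq_of_mul_eq_one_right h1
  apply Subtype.ext
  change ((dl n ℤ A)⁻¹).valᵀ = A.val
  rw [h3]
  exact Matrix.transpose_transpose A.val

theorem aut : S_AUT := by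
  intro n
  refine ⟨fun T => ⟨cje T, fun A => ?_⟩, ?_⟩
  · apply Units.ext
    change (cj T A).val * T.val = T.val * A.val
    rw [cj_val]
    have h : (T⁻¹ : GL (Fin n) ℤ).val * T.val = 1 := by
      rw [← Units.val_mul, inv_mul_cancel, Units.val_one]
    rw [mul_assoc, h, mul_one]
  · exact ⟨{ dl n ℤ with
      invFun := dl n ℤ
      left_inv := dl_dl n
      right_inv := dl_dl n }, fun A => rfl⟩

end Pool.Agent.H399.GH
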